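import Mathlib

/-!
# Hyperelliptic curves have no rational parametrisation
-/

set_option autoImplicit false

namespace Pool.Agent.TH551.HE

open Polynomial

/-- a nonconstant pencil of coprime polynomials does not contain four squares -/
theorem four_squares (K : Type) [Field K] [CharZero K] [IsAlgClosed K] (P Q : K[X])
    (hPQ : IsCoprime P Q) (a b : Fin 4 → K) (hab : ∀ i j, i ≠ j → a i * b j ≠ a j * b i)
    (A : Fin 4 → K[X]) (hA : ∀ i, C (a i) * P + C (b i) * Q = A i ^ 2) :
    P.natDegree = 0 ∧ Q.natDegree = 0 := by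
  -- the Wronskian of two members of the pencil
  have hW : ∀ i j, wronskian (A i ^ 2) (A j ^ 2) = C (a i * b j - a j * b i) * wronskian P Q := by
    intro i j
    rw [← hA, ← hA]
    simp only [wronskian, derivative_add, derivative_mul, derivative_C, zero_mul, zero_add,
      map_sub, map_mul]
    ring
  have hne : ∀ i j, i ≠ j → a i * b j - a j * b i ≠ 0 := fun i j h => sub_ne_zero.2 (hab i j h)
  -- the members are pairwise coprime
  have hcop : ∀ i j, i ≠ j → IsCoprime (A i) (A j) := by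
    intro i j hij
    have h1 : IsCoprime (A i ^ 2) (A j ^ 2) := by
      rw [← hA, ← hA]
      obtain ⟨u, v, huv⟩ := hPQ
      have h0 := hne i j hij
      refine ⟨C (a i * b j - a j * b i)⁻¹ * (u * C (b j) - v * C (a j)),
        C (a i * b j - a j * b i)⁻¹ * (v * C (a i) - u * C (b i)), ?_⟩
      have h2 : C (a i * b j - a j * b i)⁻¹ * (u * C (b j) - v * C (a j)) *
          (C (a i) * P + C (b i) * Q) + C (a i * b j - a j * b i)⁻¹ * (v * C (a i) - u * C (b i)) *
          (C (a j) * P + C (b j) * Q) =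
          C (a i * b j - a j * b i)⁻¹ * C (a i * b j - a j * b i) * (u * P + v * Q) := by
        simp only [map_sub, map_mul]
        ring
      rw [h2, huv, ← C_mul, inv_mul_cancel₀ h0, C_1, one_mul]
    exact (IsCoprime.pow_iff (by norm_num) (by norm_num)).1 h1
  -- every member divides the Wronskian
  have hdvd : ∀ i, A i ∣ wronskian P Q := by
    intro i
    obtain ⟨j, hij⟩ : ∃ j, i ≠ j := ⟨i + 1, by revert i; decide⟩
    have h1 : A i ∣ wronskian (A i ^ 2) (A j ^ 2) := by
      refine ⟨A i * derivative (A j ^ 2) - C 2 * derivative (A i) * A j ^ 2, ?_⟩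
      rw [wronskian, derivative_sq (A i)]
      ring
    rw [hW i j] at h1
    have hu : IsUnit (C (a i * b j - a j * b i) : K[X]) :=
      isUnit_C.2 (isUnit_iff_ne_zero.2 (hne i j hij))
    exact hu.dvd_mul_left.1 h1
  have hprod : A 0 * A 1 * A 2 * A 3 ∣ wronskian P Q := by
    refine IsCoprime.mul_dvd ?_ (IsCoprime.mul_dvd ?_ (IsCoprime.mul_dvd ?_ (hdvd 0) (hdvd 1))
      (hdvd 2)) (hdvd 3)
    · exact ((hcop 0 3 (by decide)).mul_left (hcop 1 3 (by decide))).mul_left
        (hcop 2 3 (by decide))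
    · exact (hcop 0 2 (by decide)).mul_left (hcop 1 2 (by decide))
    · exact hcop 0 1 (by decide)
  have hW0 : wronskian P Q = 0 := by
    by_contra hW0
    have hdeg : ∀ i j, i ≠ j → (wronskian P Q).natDegree <
        2 * (A i).natDegree + 2 * (A j).natDegree := by
      intro i j hij
      have h1 : wronskian (A i ^ 2) (A j ^ 2) ≠ 0 := by
        rw [hW i j]
        exact mul_ne_zero (C_ne_zero.2 (hne i j hij)) hW0
      have h2 := natDegree_wronskian_lt_add h1
      rw [hW i j, natDegree_C_mul (hne i j hij), natDegree_pow, natDegree_pow] at h2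
      exact h2
    have hA0 : ∀ i, A i ≠ 0 := by
      intro i h
      have := hdvd i
      rw [h, zero_dvd_iff] at this
      exact hW0 this
    have h1 := natDegree_le_of_dvd hprod hW0
    rw [natDegree_mul (mul_ne_zero (mul_ne_zero (hA0 0) (hA0 1)) (hA0 2)) (hA0 3),
      natDegree_mul (mul_ne_zero (hA0 0) (hA0 1)) (hA0 2), natDegree_mul (hA0 0) (hA0 1)] at h1
    have h2 := hdeg 0 1 (by decide)
    have h3 := hdeg 2 3 (by decide)
    omega
  have h := hPQ.wronskian_eq_zero_iff.1 hW0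
  exact ⟨Polynomial.derivative_eq_zero.1 h.1, Polynomial.derivative_eq_zero.1 h.2⟩

/-- over an algebraically closed field coprime factors of a square are squares -/
theorem rat_sq_of_coprime {K : Type} [Field K] [IsAlgClosed K] {u v z : K[X]} (h : IsCoprime u v)
    (huv : u * v = z ^ 2) : ∃ A : K[X], u = A ^ 2 := by
  obtain ⟨d, c, hc⟩ := exists_associated_pow_of_mul_eq_pow' h huv
  obtain ⟨c0, hc0, hc1⟩ := Polynomial.isUnit_iff.1 c.isUnit
  obtain ⟨e, he⟩ := IsAlgClosed.exists_pow_nat_eq c0 (n := 2) (by norm_num)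
  refine ⟨d * C e, ?_⟩
  rw [← hc, ← hc1, mul_pow, ← C_pow, he]

/-- homogenisation of a split polynomial, in an overfield -/
theorem rat_hom_prod_aux {K L : Type} [Field K] [Field L] (ψ : K →+* L) (f : K[X]) (s : Finset K)
    (a : K) (hf : f = C a * ∏ r ∈ s, (X - C r)) (hs : s.card = f.natDegree) (P Q : L)
    (hQ : Q ≠ 0) :
    ∑ i ∈ Finset.range (f.natDegree + 1), ψ (f.coeff i) * P ^ i * Q ^ (f.natDegree - i) =
      ψ a * ∏ r ∈ s, (P - ψ r * Q) := by
  have h1 : eval₂ ψ (P / Q) f = ψ a * ∏ r ∈ s, (P / Q - ψ r) := by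
    conv_lhs => rw [hf]
    rw [eval₂_mul, eval₂_C, eval₂_finsetProd]
    simp [eval₂_sub]
  rw [eval₂_eq_sum_range] at h1
  have h2 : ∏ r ∈ s, (P - ψ r * Q) = Q ^ s.card * ∏ r ∈ s, (P / Q - ψ r) := by
    rw [← Finset.prod_const, ← Finset.prod_mul_distrib]
    refine Finset.prod_congr rfl fun r _ => ?_
    field_simp
  rw [h2, hs, mul_left_comm, ← h1, Finset.mul_sum]
  refine Finset.sum_congr rfl fun i hi => ?_
  have hi' : i ≤ f.natDegree := Nat.lt_succ_iff.1 (Finset.mem_range.1 hi)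
  have h3 : Q ^ f.natDegree = Q ^ (f.natDegree - i) * Q ^ i := by
    rw [← pow_add]; congr 1; omega
  rw [h3, div_pow]
  field_simp

/-- homogenisation of a split polynomial -/
theorem rat_hom_prod {K : Type} [Field K] (f : K[X]) (s : Finset K) (a : K)
    (hf : f = C a * ∏ r ∈ s, (X - C r)) (hs : s.card = f.natDegree) (P Q : K[X]) (hQ : Q ≠ 0) :
    ∑ i ∈ Finset.range (f.natDegree + 1), C (f.coeff i) * P ^ i * Q ^ (f.natDegree - i) =
      C a * ∏ r ∈ s, (P - C r * Q) := by
  have hinj : Function.Injective (algebraMap K[X] (FractionRing K[X])) :=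
    IsFractionRing.injective K[X] (FractionRing K[X])
  apply hinj
  have hQ0 : algebraMap K[X] (FractionRing K[X]) Q ≠ 0 := by
    rw [Ne, map_eq_zero_iff _ hinj]; exact hQ
  have := rat_hom_prod_aux ((algebraMap K[X] (FractionRing K[X])).comp C) f s a hf hs
    (algebraMap K[X] (FractionRing K[X]) P) _ hQ0
  simp only [RingHom.comp_apply] at this
  simp only [map_sum, map_mul, map_prod, map_pow, map_sub]
  exact this

/-- the squarefree case over an algebraically closed field: four members of the pencil are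
squares -/
theorem rat_coprime_const {K : Type} [Field K] [CharZero K] [IsAlgClosed K] (s : Finset K) (a : K)
    (ha : a ≠ 0) (hs : 3 ≤ s.card) (P Q Y G : K[X]) (hPQ : IsCoprime P Q) (hG : G ≠ 0)
    (h : Y ^ 2 * Q ^ (s.card - 2) = G ^ 2 * (C a * ∏ r ∈ s, (P - C r * Q))) :
    P.natDegree = 0 ∧ Q.natDegree = 0 := by
  classical
  -- the factors are pairwise coprime
  have hc1 : ∀ r r', r ≠ r' → IsCoprime (P - C r * Q) (P - C r' * Q) := by
    intro r r' hr
    obtain ⟨u, v, huv⟩ := hPQ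
    have h0 : r - r' ≠ 0 := sub_ne_zero.2 hr
    refine ⟨C (r - r')⁻¹ * (-(C r') * u - v), C (r - r')⁻¹ * (C r * u + v), ?_⟩
    have h2 : C (r - r')⁻¹ * (-(C r') * u - v) * (P - C r * Q) +
        C (r - r')⁻¹ * (C r * u + v) * (P - C r' * Q) =
        C (r - r')⁻¹ * C (r - r') * (u * P + v * Q) := by
      simp only [map_sub]
      ring
    rw [h2, huv, ← C_mul, inv_mul_cancel₀ h0, C_1, one_mul]
  have hc2 : ∀ r, IsCoprime (P - C r * Q) Q := by
    intro r
    obtain ⟨u, v, huv⟩ := hPQ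
    exact ⟨u, v + u * C r, by rw [← huv]; ring⟩
  have hCa : IsUnit (C a : K[X]) := isUnit_C.2 (isUnit_iff_ne_zero.2 ha)
  -- the product is a square
  obtain ⟨Z, hZ⟩ : ∃ Z : K[X], (C a * ∏ r ∈ s, (P - C r * Q)) * Q ^ (s.card % 2) = Z ^ 2 := by
    set m := (s.card - 2 + s.card % 2) / 2 with hm
    have hm2 : s.card - 2 + s.card % 2 = 2 * m := by omega
    have h3 : (Y * Q ^ m) ^ 2 =
        G ^ 2 * ((C a * ∏ r ∈ s, (P - C r * Q)) * Q ^ (s.card % 2)) := by
      rw [mul_pow, ← pow_mul, mul_comm m 2, ← hm2, pow_add, ← mul_assoc, h]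
      ring
    have h4 : G ^ 2 ∣ (Y * Q ^ m) ^ 2 := ⟨_, h3⟩
    obtain ⟨Z, hZ⟩ := (IsIntegrallyClosed.pow_dvd_pow_iff two_ne_zero).1 h4
    refine ⟨Z, ?_⟩
    rw [hZ, mul_pow] at h3
    exact (mul_left_cancel₀ (pow_ne_zero 2 hG) h3).symm
  have hsq : ∀ r ∈ s, ∃ A : K[X], P - C r * Q = A ^ 2 := by
    intro r hr
    refine rat_sq_of_coprime (v := C a * (∏ r' ∈ s.erase r, (P - C r' * Q)) * Q ^ (s.card % 2))
      (z := Z) ?_ ?_
    · refine IsCoprime.mul_right (IsCoprime.mul_right ?_ ?_) (IsCoprime.pow_right (hc2 r))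
      · exact (isCoprime_one_right.of_isCoprime_of_dvd_right hCa.dvd)
      · exact IsCoprime.prod_right fun r' hr' => hc1 r r' (Finset.ne_of_mem_erase hr').symm
    · rw [← hZ, ← Finset.mul_prod_erase s _ hr]
      ring
  obtain ⟨t, hts, ht3⟩ := Finset.exists_subset_card_eq hs
  obtain ⟨x, y, z, hxy, hxz, hyz, rfl⟩ := Finset.card_eq_three.1 ht3
  obtain ⟨Ax, hAx⟩ := hsq x (hts (by simp))
  obtain ⟨Ay, hAy⟩ := hsq y (hts (by simp))
  obtain ⟨Az, hAz⟩ := hsq z (hts (by simp))
  rcases Nat.lt_or_ge 3 s.card with h4 | h4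
  · obtain ⟨w, hw, hwt⟩ := Finset.exists_mem_notMem_of_card_lt_card (by rw [ht3]; exact h4 :
      ({x, y, z} : Finset K).card < s.card)
    obtain ⟨Aw, hAw⟩ := hsq w hw
    simp only [Finset.mem_insert, Finset.mem_singleton, not_or] at hwt
    obtain ⟨hwx, hwy, hwz⟩ := hwt
    refine four_squares K P Q hPQ ![1, 1, 1, 1] ![-x, -y, -z, -w] ?_ ![Ax, Ay, Az, Aw] ?_
    · intro i j hij
      fin_cases i <;> fin_cases j <;> simp at hij ⊢ <;> first | assumption | (intro h; simp_all)
    · intro i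
      fin_cases i <;> simp [← hAx, ← hAy, ← hAz, ← hAw] <;> ring
  · have h5 : s.card = 3 := le_antisymm h4 hs
    obtain ⟨B, hB⟩ : ∃ B : K[X], Q = B ^ 2 := by
      refine rat_sq_of_coprime (v := C a * (∏ r' ∈ s, (P - C r' * Q))) (z := Z) ?_ ?_
      · refine IsCoprime.mul_right ?_ ?_
        · exact (isCoprime_one_right.of_isCoprime_of_dvd_right hCa.dvd)
        · exact IsCoprime.prod_right fun r' hr' => (hc2 r').symm
      · rw [← hZ, h5]
        norm_num
        ring
    refine four_squares K P Q hPQ ![1, 1, 1, 0] ![-x, -y, -z, 1] ?_ ![Ax, Ay, Az, B] ?_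
    · intro i j hij
      fin_cases i <;> fin_cases j <;> simp at hij ⊢ <;> first | assumption | (intro h; simp_all)
    · intro i
      fin_cases i <;> simp [← hAx, ← hAy, ← hAz, ← hB] <;> ring

/-- the homogenised polynomial at `(c Q, Q)` -/
theorem rat_hom_eval {K : Type} [Field K] (f : K[X]) (c : K) (Q : K[X]) :
    ∑ i ∈ Finset.range (f.natDegree + 1), C (f.coeff i) * (C c * Q) ^ i * Q ^ (f.natDegree - i) =
      C (f.eval c) * Q ^ f.natDegree := by
  rw [eval_eq_sum_range, map_sum, Finset.sum_mul]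
  refine Finset.sum_congr rfl fun i hi => ?_
  have hi' : i ≤ f.natDegree := Nat.lt_succ_iff.1 (Finset.mem_range.1 hi)
  have h3 : Q ^ f.natDegree = Q ^ (f.natDegree - i) * Q ^ i := by
    rw [← pow_add]; congr 1; omega
  rw [h3, mul_pow, C_mul, C_pow]
  ring

/-- `no_param` over an algebraically closed field -/
theorem rat_no_param_closed (K : Type) [Field K] [CharZero K] [IsAlgClosed K] (f : K[X])
    (hf : f.Separable) (hd : 3 ≤ f.natDegree) (P Q Y : K[X]) (hQ : Q ≠ 0)
    (h : Y ^ 2 * Q ^ (f.natDegree - 2) =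
      ∑ i ∈ Finset.range (f.natDegree + 1), C (f.coeff i) * P ^ i * Q ^ (f.natDegree - i)) :
    ∃ c c' : K, P = C c * Q ∧ Y = C c' * Q := by
  classical
  have hf0 : f ≠ 0 := by
    rintro rfl
    simp at hd
  -- the factorisation
  set s := f.roots.toFinset with hs
  have hnd : f.roots.Nodup := nodup_roots hf
  have hcard : s.card = f.natDegree := by
    rw [hs, Multiset.toFinset_card_of_nodup hnd]
    exact (IsAlgClosed.splits f).natDegree_eq_card_roots.symm
  have hfac : f = C f.leadingCoeff * ∏ r ∈ s, (X - C r) := by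
    have h1 := (IsAlgClosed.splits f).eq_prod_roots
    have h2 : ∏ r ∈ s, (X - C r) = (f.roots.map (fun r => X - C r)).prod := by
      rw [hs, Finset.prod, Multiset.toFinset_val, hnd.dedup]
    rw [h2]
    exact h1
  have ha : f.leadingCoeff ≠ 0 := leadingCoeff_ne_zero.2 hf0
  -- the first conclusion
  have hPQ : ∃ c : K, P = C c * Q := by
    let := IsBezout.toGCDDomain K[X]
    obtain ⟨P1, Q1, hP1, hQ1, hu⟩ := extract_gcd P Q
    have hcop : IsCoprime P1 Q1 := (gcd_isUnit_iff _ _).1 hu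
    set G := GCDMonoid.gcd P Q with hG
    have hG0 : G ≠ 0 := by
      intro h0
      rw [h0, zero_mul] at hQ1
      exact hQ hQ1
    have hQ10 : Q1 ≠ 0 := by
      intro h0
      rw [h0, mul_zero] at hQ1
      exact hQ hQ1
    rw [rat_hom_prod f s _ hfac hcard P Q hQ] at h
    have h2 : ∏ r ∈ s, (P - C r * Q) = G ^ s.card * ∏ r ∈ s, (P1 - C r * Q1) := by
      rw [← Finset.prod_const, ← Finset.prod_mul_distrib]
      refine Finset.prod_congr rfl fun r _ => ?_
      rw [hP1, hQ1]
      ring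
    have h3 : Y ^ 2 * Q1 ^ (s.card - 2) =
        G ^ 2 * (C f.leadingCoeff * ∏ r ∈ s, (P1 - C r * Q1)) := by
      have h4 : G ^ (s.card - 2) * (Y ^ 2 * Q1 ^ (s.card - 2)) =
          G ^ (s.card - 2) * (G ^ 2 * (C f.leadingCoeff * ∏ r ∈ s, (P1 - C r * Q1))) := by
        have h5 : G ^ (s.card - 2) * G ^ 2 = G ^ s.card := by
          rw [← pow_add]; congr 1; omega
        rw [← mul_assoc (G ^ (s.card - 2)) (G ^ 2), h5, mul_left_comm (G ^ s.card), ← h2, ← h,
          hQ1, hcard, mul_pow]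
        ring
      exact mul_left_cancel₀ (pow_ne_zero _ hG0) h4
    obtain ⟨h6, h7⟩ := rat_coprime_const s f.leadingCoeff ha (hcard ▸ hd) P1 Q1 Y G hcop hG0 h3
    rw [natDegree_eq_zero] at h6 h7
    obtain ⟨p, hp⟩ := h6
    obtain ⟨q, hq⟩ := h7
    have hq0 : q ≠ 0 := by
      rintro rfl
      exact hQ10 (by rw [← hq, C_0])
    refine ⟨p / q, ?_⟩
    have h8 : (C (p / q) : K[X]) * C q = C p := by
      rw [← C_mul, div_mul_cancel₀ _ hq0]
    rw [hP1, hQ1, ← hp, ← hq, ← h8]
    ring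
  obtain ⟨c, rfl⟩ := hPQ
  rw [rat_hom_eval] at h
  obtain ⟨m, hm⟩ := IsAlgClosed.exists_pow_nat_eq (f.eval c) (n := 2) (by norm_num)
  have h9 : Y ^ 2 = (C m * Q) ^ 2 := by
    have h10 : Q ^ (f.natDegree - 2) * Y ^ 2 = Q ^ (f.natDegree - 2) * (C m * Q) ^ 2 := by
      have h11 : Q ^ f.natDegree = Q ^ (f.natDegree - 2) * Q ^ 2 := by
        rw [← pow_add]; congr 1; omega
      rw [mul_comm, h, h11, mul_pow, ← C_pow, hm]
      ring
    exact mul_left_cancel₀ (pow_ne_zero _ hQ) h10
  rcases sq_eq_sq_iff_eq_or_eq_neg.1 h9 with h12 | h12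
  · exact ⟨c, m, rfl, h12⟩
  · exact ⟨c, -m, rfl, by rw [h12, C_neg]; ring⟩

/-- descent of proportionality -/
theorem rat_descend {K L : Type} [Field K] [Field L] (ψ : K →+* L) (P Q : K[X]) (hQ : Q ≠ 0) (c : L)
    (h : P.map ψ = C c * Q.map ψ) : ∃ c0 : K, P = C c0 * Q := by
  refine ⟨P.coeff Q.natDegree / Q.leadingCoeff, map_injective ψ ψ.injective ?_⟩
  have h1 : ψ (P.coeff Q.natDegree) = c * ψ Q.leadingCoeff := by
    have := congrArg (fun p => p.coeff Q.natDegree) h
    simpa [coeff_map] using this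
  have h2 : ψ Q.leadingCoeff ≠ 0 := by
    rw [Ne, map_eq_zero]
    exact leadingCoeff_ne_zero.2 hQ
  rw [Polynomial.map_mul, map_C, map_div₀, h1, mul_div_cancel_right₀ _ h2, h]

/-- the hyperelliptic curve `y ^ 2 = f x`, `f` of degree at least 3 without repeated roots, has no
nonconstant parametrisation by `x = P / Q`, `y = Y / Q` -/
theorem no_param (K : Type) [Field K] [CharZero K] (f : K[X]) (hf : f.Separable)
    (hd : 3 ≤ f.natDegree) (P Q Y : K[X]) (hQ : Q ≠ 0)
    (h : Y ^ 2 * Q ^ (f.natDegree - 2) =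
      ∑ i ∈ Finset.range (f.natDegree + 1), C (f.coeff i) * P ^ i * Q ^ (f.natDegree - i)) :
    ∃ c c' : K, P = C c * Q ∧ Y = C c' * Q := by
  set ψ : K →+* AlgebraicClosure K := algebraMap K (AlgebraicClosure K) with hψ
  have hinj : Function.Injective ψ := ψ.injective
  have hdeg : (f.map ψ).natDegree = f.natDegree := natDegree_map ψ
  have : CharZero (AlgebraicClosure K) := charZero_of_injective_algebraMap hinj
  obtain ⟨c, c', h1, h2⟩ := rat_no_param_closed (AlgebraicClosure K) (f.map ψ) hf.map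
    (by rw [hdeg]; exact hd) (P.map ψ) (Q.map ψ) (Y.map ψ)
    ((Polynomial.map_ne_zero_iff hinj).2 hQ) (by
      rw [hdeg]
      have := congrArg (Polynomial.map ψ) h
      simpa only [Polynomial.map_mul, Polynomial.map_pow, Polynomial.map_sum, map_C,
        coeff_map] using this)
  obtain ⟨c0, h3⟩ := rat_descend ψ P Q hQ c h1
  obtain ⟨c1, h4⟩ := rat_descend ψ Y Q hQ c' h2
  exact ⟨c0, c1, h3, h4⟩

end Pool.Agent.TH551.HE
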