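import Mathlib
import Pool.Agent.TH551.SU.Uni

/-!
# Hyperelliptic curves and short sums of S-units, uniformly in the polynomial
-/

set_option autoImplicit false

namespace Pool.Agent.TH551.HE

open Height Pool.Agent.TH551.SU.Uni Pool.Agent.TH551.SU Pool.Agent.TH551.SU.Ht
open Pool.Agent.H533R3.SL

/-- the statement of the job HE-RAT -/
def NoParam : Prop :=
  ∀ (f : Polynomial ℚ), f.Separable → 3 ≤ f.natDegree →
    ∀ (P Q Y : Polynomial ℚ), Q ≠ 0 →
      Y ^ 2 * Q ^ (f.natDegree - 2) = ∑ i ∈ Finset.range (f.natDegree + 1),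
        Polynomial.C (f.coeff i) * P ^ i * Q ^ (f.natDegree - i) →
      ∃ c c' : ℚ, P = Polynomial.C c * Q ∧ Y = Polynomial.C c' * Q

/-- the form `y ^ 2 z ^ (d - 2) - f(x, z)` -/
noncomputable def form (d : ℕ) (f : Polynomial ℚ) : MvPolynomial (Fin (2 + 1)) ℚ :=
  MvPolynomial.X 1 ^ 2 * MvPolynomial.X 2 ^ (d - 2) -
    ∑ i ∈ Finset.range (d + 1), MvPolynomial.C (f.coeff i) * MvPolynomial.X 0 ^ i *
      MvPolynomial.X 2 ^ (d - i)

lemma form_hom (d : ℕ) (hd : 2 ≤ d) (f : Polynomial ℚ) : (form d f).IsHomogeneous d := by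
  unfold form
  refine MvPolynomial.IsHomogeneous.sub ?_ ?_
  · have h := ((MvPolynomial.isHomogeneous_X ℚ (1 : Fin (2 + 1))).pow 2).mul
      ((MvPolynomial.isHomogeneous_X ℚ (2 : Fin (2 + 1))).pow (d - 2))
    have h2 : 1 * 2 + 1 * (d - 2) = d := by omega
    rwa [h2] at h
  · refine MvPolynomial.IsHomogeneous.sum _ _ _ fun i hi => ?_
    have h := ((MvPolynomial.isHomogeneous_C (Fin (2 + 1)) (f.coeff i)).mul
      ((MvPolynomial.isHomogeneous_X ℚ (0 : Fin (2 + 1))).pow i)).mul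
      ((MvPolynomial.isHomogeneous_X ℚ (2 : Fin (2 + 1))).pow (d - i))
    have h2 : 0 + 1 * i + 1 * (d - i) = d := by
      have := Finset.mem_range.1 hi
      omega
    rwa [h2] at h

lemma form_aeval (d : ℕ) (f : Polynomial ℚ) {A : Type} [CommRing A] [Algebra ℚ A]
    (x : Fin (2 + 1) → A) : MvPolynomial.aeval x (form d f) =
      x 1 ^ 2 * x 2 ^ (d - 2) -
        ∑ i ∈ Finset.range (d + 1), algebraMap ℚ A (f.coeff i) * x 0 ^ i * x 2 ^ (d - i) := by
  unfold form
  simp [map_sub, map_mul, map_sum, map_pow]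

/-- the height of the form -/
lemma form_height (d : ℕ) (f : Polynomial ℤ) (M : ℝ) (hM : 1 ≤ M)
    (hf : ∀ i, |(f.coeff i : ℝ)| ≤ M) :
    formHeight (form d (f.map (Int.castRingHom ℚ))) ≤ Real.log ((d + 2) * M) := by
  classical
  -- integral coefficients
  have h1 : ∀ α : Fin (2 + 1) →₀ ℕ, ∃ z : ℤ,
      MvPolynomial.coeff α (form d (f.map (Int.castRingHom ℚ))) = z ∧
      |(z : ℝ)| ≤ (d + 2) * M := by
    intro α
    have hX : (MvPolynomial.X 1 ^ 2 * MvPolynomial.X 2 ^ (d - 2) :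
        MvPolynomial (Fin (2 + 1)) ℚ) =
        MvPolynomial.monomial (Finsupp.single 1 2 + Finsupp.single 2 (d - 2)) 1 := by
      rw [MvPolynomial.X_pow_eq_monomial, MvPolynomial.X_pow_eq_monomial,
        MvPolynomial.monomial_mul, one_mul]
    have hY : ∀ i, (MvPolynomial.C ((f.map (Int.castRingHom ℚ)).coeff i) *
        MvPolynomial.X 0 ^ i * MvPolynomial.X 2 ^ (d - i) : MvPolynomial (Fin (2 + 1)) ℚ) =
        MvPolynomial.monomial (Finsupp.single 0 i + Finsupp.single 2 (d - i))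
          ((f.coeff i : ℤ) : ℚ) := by
      intro i
      rw [MvPolynomial.X_pow_eq_monomial, MvPolynomial.X_pow_eq_monomial,
        MvPolynomial.C_mul_monomial, MvPolynomial.monomial_mul, mul_one, mul_one,
        Polynomial.coeff_map]
      rfl
    refine ⟨(if (Finsupp.single 1 2 + Finsupp.single 2 (d - 2) : Fin (2 + 1) →₀ ℕ) = α
      then 1 else 0) - ∑ i ∈ Finset.range (d + 1),
        (if (Finsupp.single 0 i + Finsupp.single 2 (d - i) : Fin (2 + 1) →₀ ℕ) = α
          then f.coeff i else 0), ?_, ?_⟩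
    · unfold form
      rw [hX, Finset.sum_congr rfl fun i _ => hY i, MvPolynomial.coeff_sub,
        MvPolynomial.coeff_sum, MvPolynomial.coeff_monomial]
      push_cast
      congr 1
      refine Finset.sum_congr rfl fun i _ => ?_
      rw [MvPolynomial.coeff_monomial]
    · push_cast
      refine (abs_sub _ _).trans ?_
      have h2 : |(if (Finsupp.single 1 2 + Finsupp.single 2 (d - 2) : Fin (2 + 1) →₀ ℕ) = α
          then (1 : ℝ) else 0)| ≤ M := by
        split_ifs
        · rw [abs_one]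
          exact hM
        · rw [abs_zero]
          linarith
      have h3 : |∑ i ∈ Finset.range (d + 1),
          (if (Finsupp.single 0 i + Finsupp.single 2 (d - i) : Fin (2 + 1) →₀ ℕ) = α
          then (f.coeff i : ℝ) else 0)| ≤ (d + 1) * M := by
        refine (Finset.abs_sum_le_sum_abs _ _).trans ?_
        refine (Finset.sum_le_card_nsmul _ _ M fun i _ => ?_).trans ?_
        · split_ifs
          · exact hf i
          · rw [abs_zero]
            linarith
        · rw [Finset.card_range, nsmul_eq_mul]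
          push_cast
          exact le_rfl
      linarith
  choose z hz hzb using h1
  have hne : (form d (f.map (Int.castRingHom ℚ))) = 0 ∨
      Nonempty (form d (f.map (Int.castRingHom ℚ))).support := by
    by_cases h : form d (f.map (Int.castRingHom ℚ)) = 0
    · exact Or.inl h
    · obtain ⟨α, hα⟩ := MvPolynomial.support_nonempty.2 h
      exact Or.inr ⟨⟨α, hα⟩⟩
  have hB : (1 : ℝ) ≤ (d + 2) * M := by nlinarith [(Nat.cast_nonneg d : (0 : ℝ) ≤ d)]
  unfold formHeight
  rcases hne with h | h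
  · have h2 : (fun a : (form d (f.map (Int.castRingHom ℚ))).support =>
        MvPolynomial.coeff (a : Fin (2 + 1) →₀ ℕ) (form d (f.map (Int.castRingHom ℚ)))) = 0 := by
      funext a
      have h3 : MvPolynomial.coeff (a : Fin (2 + 1) →₀ ℕ)
          (form d (f.map (Int.castRingHom ℚ))) = 0 := by
        have h4 : ∀ F : MvPolynomial (Fin (2 + 1)) ℚ, F = 0 → ∀ β, MvPolynomial.coeff β F = 0 := by
          intro F hF β
          rw [hF, MvPolynomial.coeff_zero]
        exact h4 _ h _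
      exact h3
    rw [h2, logHeight_zero]
    exact Real.log_nonneg hB
  · have h2 : (fun a : (form d (f.map (Int.castRingHom ℚ))).support =>
        MvPolynomial.coeff (a : Fin (2 + 1) →₀ ℕ) (form d (f.map (Int.castRingHom ℚ)))) =
        fun a : (form d (f.map (Int.castRingHom ℚ))).support =>
          ((z (a : Fin (2 + 1) →₀ ℕ) : ℤ) : ℚ) := funext fun a => hz a
    rw [h2]
    exact logHeight_int_le (fun a : (form d (f.map (Int.castRingHom ℚ))).support =>
      z (a : Fin (2 + 1) →₀ ℕ)) _ hB fun a => hzb a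

/-- the coordinates of a rational point are bounded by its height -/
lemma num_den_le (x y : ℚ) : Real.log (max |(x.num : ℝ)| (x.den : ℝ)) ≤
    logHeight (![x, y, 1] : Fin (2 + 1) → ℚ) := by
  obtain ⟨c, w, hc, hw, hwb⟩ := exists_primitive (![x, y, 1] : Fin (2 + 1) → ℚ) (by
    intro h
    have h1 := congrFun h 2
    simp at h1)
  have h0 : x = c * w 0 := hw 0
  have h2 : (1 : ℚ) = c * w 2 := hw 2
  have hw2 : w 2 ≠ 0 := by
    intro h
    rw [h] at h2
    simp at h2
  have hxw : x = (w 0 : ℚ) / (w 2 : ℚ) := by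
    have h3 : (w 2 : ℚ) ≠ 0 := by exact_mod_cast hw2
    rw [eq_div_iff h3, h0]
    linear_combination (-(w 0 : ℚ)) * h2
  have hden : ((x.den : ℤ)) ∣ w 2 := by
    have h3 := Rat.den_dvd (w 0) (w 2)
    rwa [Rat.divInt_eq_div, ← hxw] at h3
  have hnum : x.num ∣ w 0 := by
    have h3 := Rat.num_dvd (w 0) hw2
    rwa [Rat.divInt_eq_div, ← hxw] at h3
  have hpos : (0 : ℝ) < max |(x.num : ℝ)| (x.den : ℝ) :=
    lt_max_of_lt_right (by exact_mod_cast x.den_pos)
  rw [Real.log_le_iff_le_exp hpos]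
  refine max_le ?_ ?_
  · by_cases h : w 0 = 0
    · have h3 : x = 0 := by rw [hxw, h]; simp
      rw [h3]
      simpa using (Real.exp_pos _).le
    · exact (abs_le_of_dvd hnum h).trans (hwb 0)
  · have h3 := (abs_le_of_dvd hden hw2).trans (hwb 2)
    have h4 : |((x.den : ℤ) : ℝ)| = (x.den : ℝ) := by
      rw [Int.cast_natCast, Nat.abs_cast]
    rwa [h4] at h3

/-- points that are short sums of S-units on hyperelliptic curves -/
theorem app (hU : ∀ d r : ℕ, ∃ D : ℕ, ∀ (n : ℕ) (Γ : Subgroup ℚˣ), Γ.FG → ∃ C : ℝ,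
      ∀ (FF : Set (MvPolynomial (Fin (n + 1)) ℚ)) (H : ℝ), 0 ≤ H →
        (∀ F ∈ FF, (∃ e ≤ d, F.IsHomogeneous e) ∧ formHeight F ≤ H) →
        ∀ (u : Fin r → Γ) (v : Fin r → Fin (n + 1) → ℚ),
          (∀ F ∈ FF, MvPolynomial.aeval (fun i => ∑ j, ((u j : ℚˣ) : ℚ) * v j i) F = 0) →
          C * (1 + H + logHeight (fun q : Fin r × Fin (n + 1) => v q.1 q.2)) <
            logHeight (fun i => ∑ j, ((u j : ℚˣ) : ℚ) * v j i) →
          ∃ l : Fin r → ℕ, (∀ j, l j ≤ D) ∧
            (∀ F ∈ FF, MvPolynomial.aeval (cur (fun j i => ((u j : ℚˣ) : ℚ) * v j i) l) F = 0) ∧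
            ∃ i i', cur (fun j i => ((u j : ℚˣ) : ℚ) * v j i) l i *
                Polynomial.C (∑ j, ((u j : ℚˣ) : ℚ) * v j i') ≠
              cur (fun j i => ((u j : ℚˣ) : ℚ) * v j i) l i' *
                Polynomial.C (∑ j, ((u j : ℚˣ) : ℚ) * v j i))
    (hnp : NoParam) (d r : ℕ) (hd : 3 ≤ d) (Γ : Subgroup ℚˣ) (hΓ : Γ.FG) :
    ∃ C : ℝ, ∀ f : Polynomial ℤ, f.natDegree = d → (f.map (Int.castRingHom ℚ)).Separable →
      ∀ M : ℝ, 1 ≤ M → (∀ i, |(f.coeff i : ℝ)| ≤ M) →
      ∀ (u : Fin r → Γ) (a b : Fin r → ℤ), (∀ j, |(a j : ℝ)| ≤ M) → (∀ j, |(b j : ℝ)| ≤ M) →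
      ∀ x y : ℚ, x = ∑ j, ((u j : ℚˣ) : ℚ) * a j → y = ∑ j, ((u j : ℚˣ) : ℚ) * b j →
        y ^ 2 = (f.map (Int.castRingHom ℚ)).eval x →
        Real.log (max |(x.num : ℝ)| (x.den : ℝ)) ≤ C * (1 + Real.log M) := by
  classical
  obtain ⟨D, hD⟩ := hU d (r + 1)
  obtain ⟨C, hC⟩ := hD 2 Γ hΓ
  refine ⟨|C| * (2 + Real.log (d + 2)), ?_⟩
  intro f hfd hfs M hM hfM u a b ha hb x y hx hy hxy
  refine (num_den_le x y).trans ?_
  by_contra hlt
  push Not at hlt
  have hlogM : 0 ≤ Real.log M := Real.log_nonneg hM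
  have hlogd : 0 ≤ Real.log ((d : ℝ) + 2) := Real.log_nonneg (by
    have : (0 : ℝ) ≤ d := Nat.cast_nonneg d
    linarith)
  set u' : Fin (r + 1) → Γ := Fin.cons 1 u with hu'
  set v' : Fin (r + 1) → Fin (2 + 1) → ℚ :=
    Fin.cons ![0, 0, 1] (fun j => ![(a j : ℚ), (b j : ℚ), 0]) with hv'
  have hpt : (fun i => ∑ j, ((u' j : ℚˣ) : ℚ) * v' j i) = ![x, y, 1] := by
    funext i
    rw [Fin.sum_univ_succ]
    fin_cases i
    · simp [hu', hv', hx]
    · simp [hu', hv', hy]
    · simp [hu', hv']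
  have hH : formHeight (form d (f.map (Int.castRingHom ℚ))) ≤ Real.log ((d + 2) * M) :=
    form_height d f M hM hfM
  have hH0 : 0 ≤ Real.log ((d + 2) * M) := Real.log_nonneg (by
    nlinarith [(Nat.cast_nonneg d : (0 : ℝ) ≤ d)])
  have hv : logHeight (fun q : Fin (r + 1) × Fin (2 + 1) => v' q.1 q.2) ≤ Real.log M := by
    have h1 : (fun q : Fin (r + 1) × Fin (2 + 1) => v' q.1 q.2) = fun q => (((Fin.cons ![0, 0, 1]
        (fun j => ![a j, b j, 0]) : Fin (r + 1) → Fin (2 + 1) → ℤ) q.1 q.2 : ℤ) : ℚ) := by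
      funext q
      obtain ⟨j, i⟩ := q
      refine Fin.cases ?_ (fun j => ?_) j
      · fin_cases i <;> simp [hv']
      · fin_cases i <;> simp [hv']
    rw [h1]
    refine logHeight_int_le _ M hM fun q => ?_
    obtain ⟨j, i⟩ := q
    refine Fin.cases ?_ (fun j => ?_) j
    · fin_cases i
      · simpa using zero_le_one.trans hM
      · simpa using zero_le_one.trans hM
      · simpa using hM
    · fin_cases i
      · simpa using ha j
      · simpa using hb j
      · simpa using zero_le_one.trans hM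
  obtain ⟨l, -, hcur, i, i', hne⟩ := hC {form d (f.map (Int.castRingHom ℚ))}
    (Real.log ((d + 2) * M)) hH0 (by
      intro F hF
      rw [Set.mem_singleton_iff] at hF
      rw [hF]
      exact ⟨⟨d, le_rfl, form_hom d (by omega) _⟩, hH⟩) u' v' (by
      intro F hF
      rw [Set.mem_singleton_iff] at hF
      rw [hF, hpt, form_aeval]
      have h1 : (f.map (Int.castRingHom ℚ)).natDegree = d := by
        rw [Polynomial.natDegree_map_eq_of_injective Int.cast_injective, hfd]
      simp only [Matrix.cons_val_zero, Matrix.cons_val_one, Matrix.cons_val, one_pow, mul_one]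
      rw [hxy, Polynomial.eval_eq_sum_range, h1]
      simp) (by
      rw [hpt]
      refine lt_of_le_of_lt ?_ hlt
      rw [Real.log_mul (by positivity) (by positivity)]
      have h1 : C * (1 + (Real.log (d + 2) + Real.log M) +
          logHeight (fun q : Fin (r + 1) × Fin (2 + 1) => v' q.1 q.2)) ≤
          |C| * (1 + (Real.log (d + 2) + Real.log M) + Real.log M) := by
        refine (mul_le_mul_of_nonneg_right (le_abs_self C) ?_).trans
          (mul_le_mul_of_nonneg_left (by linarith) (abs_nonneg C))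
        have := logHeight_nonneg (fun q : Fin (r + 1) × Fin (2 + 1) => v' q.1 q.2)
        linarith
      refine h1.trans ?_
      rw [mul_assoc]
      refine mul_le_mul_of_nonneg_left ?_ (abs_nonneg C)
      nlinarith [mul_nonneg hlogd hlogM])
  have hcur' := hcur _ rfl
  rw [form_aeval, sub_eq_zero] at hcur'
  have h2 : cur (fun j i => ((u' j : ℚˣ) : ℚ) * v' j i) l 2 = Polynomial.X ^ (l 0) := by
    unfold cur
    rw [Fin.sum_univ_succ]
    simp [hu', hv']
  have h1 : (f.map (Int.castRingHom ℚ)).natDegree = d := by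
    rw [Polynomial.natDegree_map_eq_of_injective Int.cast_injective, hfd]
  obtain ⟨c, c', hc, hc'⟩ := hnp (f.map (Int.castRingHom ℚ)) hfs (h1 ▸ hd)
    (cur (fun j i => ((u' j : ℚˣ) : ℚ) * v' j i) l 0)
    (cur (fun j i => ((u' j : ℚˣ) : ℚ) * v' j i) l 2)
    (cur (fun j i => ((u' j : ℚˣ) : ℚ) * v' j i) l 1) (by
      rw [h2]
      exact pow_ne_zero _ Polynomial.X_ne_zero) (by
      rw [h1]
      exact hcur')
  apply hne
  have hev : ∀ i, (cur (fun j i => ((u' j : ℚˣ) : ℚ) * v' j i) l i).eval 1 =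
      ∑ j, ((u' j : ℚˣ) : ℚ) * v' j i := fun i => cur_eval_one _ _ _
  have hpr : ∀ i, cur (fun j i => ((u' j : ℚˣ) : ℚ) * v' j i) l i =
      Polynomial.C (∑ j, ((u' j : ℚˣ) : ℚ) * v' j i) *
        cur (fun j i => ((u' j : ℚˣ) : ℚ) * v' j i) l 2 := by
    intro i
    obtain ⟨k, hk⟩ : ∃ k : ℚ, cur (fun j i => ((u' j : ℚˣ) : ℚ) * v' j i) l i =
        Polynomial.C k * cur (fun j i => ((u' j : ℚˣ) : ℚ) * v' j i) l 2 := by
      fin_cases i
      · exact ⟨c, hc⟩
      · exact ⟨c', hc'⟩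
      · exact ⟨1, by simp⟩
    have h3 := hev i
    rw [hk, h2, Polynomial.eval_mul, Polynomial.eval_C, Polynomial.eval_pow, Polynomial.eval_X,
      one_pow, mul_one] at h3
    rw [← h3]
    exact hk
  rw [hpr i, hpr i']
  ring

end Pool.Agent.TH551.HE
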